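import Pool.Agent.L7h96.CD.Upper
import Pool.Agent.R966.CD.LowDim2

/-!
The trace of Brownian motion in `ℝ^n` has conformal dimension one for every `n ≥ 512`.
-/

set_option autoImplicit false

namespace Pool.Agent.Results.MP_d65fed_pr.HighDimConformalDimOne

open MeasureTheory ProbabilityTheory Filter Topology
open scoped NNReal ENNReal

universe u

/-- A homeomorphism `f : X → Y` between metric spaces is quasisymmetric: there is a homeomorphism
`η : [0,∞) → [0,∞)` such that `d(x,a) ≤ t d(x,b)` implies `d(f x, f a) ≤ η t * d(f x, f b)`. -/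
def Quasisymmetric {X Y : Type} [MetricSpace X] [MetricSpace Y] (f : X ≃ₜ Y) : Prop :=
  ∃ η : ℝ≥0 ≃ₜ ℝ≥0, ∀ (x a b : X) (t : ℝ≥0), dist x a ≤ t * dist x b →
    dist (f x) (f a) ≤ η t * dist (f x) (f b)

/-- The conformal dimension of a metric space: the infimum of the Hausdorff dimensions of its
quasisymmetric images. -/
noncomputable def confDim (X : Type) [MetricSpace X] : ℝ≥0∞ :=
  ⨅ (Y : Type) (_ : MetricSpace Y) (f : X ≃ₜ Y) (_ : Quasisymmetric f), dimH (Set.univ : Set Y)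

/-- Standard Brownian motion in `ℝ^n` started at `0`: measurable, with almost surely continuous
paths, independent increments, and Gaussian increments: `B_t - B_s` is distributed as `√(t - s)`
times a standard Gaussian vector of `ℝ^n`. -/
structure IsBrownianMotion {n : ℕ} {Ω : Type*} [MeasurableSpace Ω] (P : Measure Ω)
    (B : ℝ≥0 → Ω → EuclideanSpace ℝ (Fin n)) : Prop where
  measurable : ∀ t, Measurable (B t)
  zero : ∀ᵐ ω ∂P, B 0 ω = 0
  cont : ∀ᵐ ω ∂P, Continuous fun t => B t ω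
  indep : HasIndepIncrements B P
  law : ∀ s t : ℝ≥0, s ≤ t → P.map (fun ω => B t ω - B s ω) =
    (stdGaussian (EuclideanSpace ℝ (Fin n))).map (fun z => Real.sqrt ((t - s : ℝ≥0) : ℝ) • z)

/-- The trace `B([0,1])`. -/
def trace {n : ℕ} {Ω : Type u} (B : ℝ≥0 → Ω → EuclideanSpace ℝ (Fin n)) (ω : Ω) :
    Set (EuclideanSpace ℝ (Fin n)) :=
  (fun t => B t ω) '' Set.Icc 0 1

open Pool.Agent.R966.CD (IsBM Tr path Wt low_dim)
open Pool.Agent.L7h96.CD (upper)

theorem trace_eq {n : ℕ} {Ω : Type u} (B : ℝ≥0 → Ω → EuclideanSpace ℝ (Fin n)) (ω : Ω) :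
    trace B ω = Tr (path B ω) := by
  ext y
  constructor
  · rintro ⟨t, ht, rfl⟩
    refine ⟨t, ⟨t.2, by exact_mod_cast ht.2⟩, ?_⟩
    show B (t : ℝ).toNNReal ω = B t ω
    rw [Real.toNNReal_coe]
  · rintro ⟨t, ht, rfl⟩
    refine ⟨t.toNNReal, ⟨zero_le, ?_⟩, rfl⟩
    have := Real.toNNReal_le_toNNReal ht.2
    rwa [Real.toNNReal_one] at this

theorem confDim_le {n : ℕ} (T S : Set (EuclideanSpace ℝ (Fin n))) (h : T = S) (q : ℝ≥0)
    (hW : ∃ W : Wt S, (∃ η : ℝ≥0 ≃ₜ ℝ≥0, ∀ (x a c : S) (t : ℝ≥0), dist x a ≤ t * dist x c →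
      dist (W.homeo x) (W.homeo a) ≤ η t * dist (W.homeo x) (W.homeo c)) ∧
      dimH (Set.univ : Set W.Y) ≤ q) : confDim T ≤ q := by
  subst h
  obtain ⟨W, ⟨η, hη⟩, hd⟩ := hW
  refine le_trans ?_ hd
  unfold confDim
  exact iInf_le_of_le W.Y (iInf_le_of_le inferInstance (iInf_le_of_le W.homeo
    (iInf_le_of_le ⟨η, hη⟩ le_rfl)))

theorem one_le_dimH {Y : Type} [MetricSpace Y] [PreconnectedSpace Y] {a b : Y} (hab : a ≠ b) :
    1 ≤ dimH (Set.univ : Set Y) := by
  have hlip : LipschitzWith 1 (fun y : Y => dist y a) := LipschitzWith.dist_left a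
  have h1 : dimH (Set.range fun y : Y => dist y a) ≤ dimH (Set.univ : Set Y) := hlip.dimH_range_le
  refine le_trans ?_ h1
  have hpos : 0 < dist b a := dist_pos.mpr hab.symm
  have hconn : IsPreconnected (Set.range fun y : Y => dist y a) :=
    isPreconnected_range hlip.continuous
  have hsub : Set.Icc 0 (dist b a) ⊆ Set.range fun y : Y => dist y a :=
    hconn.Icc_subset ⟨a, dist_self a⟩ ⟨b, rfl⟩
  have h2 : dimH (Set.Icc 0 (dist b a)) = 1 := by
    have h3 := Real.dimH_of_nonempty_interior (s := Set.Icc (0:ℝ) (dist b a)) (by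
      rw [interior_Icc]
      exact Set.nonempty_Ioo.mpr hpos)
    rw [h3, Module.finrank_self, Nat.cast_one]
  rw [← h2]
  exact dimH_mono hsub

theorem one_le_confDim {X : Type} [MetricSpace X] [PreconnectedSpace X] {a b : X} (hab : a ≠ b) :
    1 ≤ confDim X := by
  unfold confDim
  refine le_iInf fun Y => le_iInf fun _ => le_iInf fun f => le_iInf fun _ => ?_
  have : PreconnectedSpace Y := by
    constructor
    have h1 := isPreconnected_range f.continuous
    rwa [f.surjective.range_eq] at h1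
  exact one_le_dimH (a := f a) (b := f b) (fun h => hab (f.injective h))

/-- **Main result.** For every `n ≥ 512` and every standard Brownian motion in `ℝ^n`, almost surely
the trace `B([0,1])` has conformal dimension one. -/
theorem result (n : ℕ) (hn : 512 ≤ n) (Ω : Type u) [MeasurableSpace Ω]
    (P : Measure Ω) [IsProbabilityMeasure P] (B : ℝ≥0 → Ω → EuclideanSpace ℝ (Fin n))
    (hB : IsBrownianMotion P B) : ∀ᵐ ω ∂P, confDim (trace B ω) = 1 := by
  have hB' : IsBM P B := ⟨hB.measurable, hB.zero, hB.cont, hB.indep, hB.law⟩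
  have hup : ∀ᵐ ω ∂P, ∀ m : ℕ, confDim (trace B ω) ≤ ((1 + 1 / ((m:ℝ≥0) + 1) : ℝ≥0) : ℝ≥0∞) := by
    rw [ae_all_iff]
    intro m
    have h1 : (1 : ℝ≥0) < 1 + 1 / ((m:ℝ≥0) + 1) := lt_add_of_pos_right _ (by positivity)
    have h2 : 1 + 1 / ((m:ℝ≥0) + 1) ≤ 2 := by
      have h3 : 1 / ((m:ℝ≥0) + 1) ≤ 1 := by
        rw [div_le_one (by positivity)]
        exact le_add_self
      calc 1 + 1 / ((m:ℝ≥0) + 1) ≤ 1 + 1 := by gcongr
        _ = 2 := one_add_one_eq_two
    filter_upwards [upper.{u} _ h1 h2 hn P B hB'] with ω hω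
    exact confDim_le _ _ (trace_eq B ω) _ hω
  filter_upwards [hup, low_dim hB' (show 3 ≤ n by omega), hB.cont] with ω h1 h2 h3
  apply le_antisymm
  · have hlim : Tendsto (fun m : ℕ => ((1 + 1 / ((m:ℝ≥0) + 1) : ℝ≥0) : ℝ≥0∞)) atTop (𝓝 1) := by
      have h4 : Tendsto (fun m : ℕ => (1 + 1 / ((m:ℝ≥0) + 1) : ℝ≥0)) atTop (𝓝 (1 + 0)) :=
        tendsto_const_nhds.add tendsto_one_div_add_atTop_nhds_zero_nat
      rw [add_zero] at h4
      exact ENNReal.tendsto_coe.mpr h4
    exact ge_of_tendsto' hlim h1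
  · have hpre : IsPreconnected (trace B ω) := isPreconnected_Icc.image _ h3.continuousOn
    have : PreconnectedSpace (trace B ω) := isPreconnected_iff_preconnectedSpace.mp hpre
    have hnt : (trace B ω).Nontrivial := by
      by_contra hcon
      rw [Set.not_nontrivial_iff] at hcon
      have h5 : dimH (trace B ω) = 0 := hcon.countable.dimH_zero
      have h6 : ((3/2 : ℝ≥0) : ℝ≥0∞) ≤ dimH (trace B ω) := by
        rw [trace_eq]; exact h2
      rw [h5] at h6
      have h7 : (0 : ℝ≥0∞) < ((3/2 : ℝ≥0) : ℝ≥0∞) := ENNReal.coe_pos.mpr (by positivity)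
      exact absurd h7 (not_lt.mpr h6)
    obtain ⟨a, ha, b, hb, hab⟩ := hnt
    exact one_le_confDim (a := (⟨a, ha⟩ : trace B ω)) (b := ⟨b, hb⟩)
      (fun h => hab (congrArg Subtype.val h))

end Pool.Agent.Results.MP_d65fed_pr.HighDimConformalDimOne
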